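import Mathlib

/-!
# Finite perfect centreless groups with small conjugacy classes

For every `m` we construct a finite group `G`, perfect and with trivial centre, such that
`n(G) ^ m < |G|`, where `n(G)` is the largest size of a conjugacy class of `G`.
For `m = 2` this refutes the inequality `|G| ≤ n(G) ^ 2`.

The group is the group of block upper triangular matrices over the field with two elements with
four diagonal blocks of sizes `a, 3, a, 3`, where the first and the third diagonal block are
identity matrices (it is generated by transvections).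
-/

namespace Pool.Agent.Results.MP_606b74_al.SuperPoly

open Matrix
open scoped commutatorElement

/-- The largest size of a conjugacy class of the (finite) group `G`. -/
noncomputable def maxClass (G : Type*) [Group G] : ℕ := ⨆ x : G, (conjugatesOf x).ncard

/-- The index set of our matrices: four blocks, of sizes `a`, `3`, `a`, `3`. -/
abbrev Idx (a : ℕ) : Type := (Fin a ⊕ Fin 3) ⊕ (Fin a ⊕ Fin 3)

/-- The number (0, 1, 2 or 3) of the block in which an index lies. -/
def lev {a : ℕ} : Idx a → ℕ
  | Sum.inl (Sum.inl _) => 0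
  | Sum.inl (Sum.inr _) => 1
  | Sum.inr (Sum.inl _) => 2
  | Sum.inr (Sum.inr _) => 3

/-- The positions which are not forced. -/
def Free {a : ℕ} (i j : Idx a) : Prop := lev i < lev j ∨ (lev i = lev j ∧ (lev i = 1 ∨ lev i = 3))

theorem Free.trans {a : ℕ} {i j k : Idx a} (h : Free i j) (h' : Free j k) : Free i k := by
  unfold Free at *
  omega

/-- The set of generators: the transvections at the free off-diagonal positions. -/
def gens (a : ℕ) : Set (Matrix (Idx a) (Idx a) (ZMod 2))ˣ :=
  {g | ∃ i j, i ≠ j ∧ Free i j ∧ (g : Matrix (Idx a) (Idx a) (ZMod 2)) = transvection i j 1}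

/-- The group. -/
def G (a : ℕ) : Subgroup (Matrix (Idx a) (Idx a) (ZMod 2))ˣ := Subgroup.closure (gens a)

/-- The transvection as a unit. -/
def T {a : ℕ} (i j : Idx a) (h : i ≠ j) : (Matrix (Idx a) (Idx a) (ZMod 2))ˣ where
  val := transvection i j 1
  inv := transvection i j 1
  val_inv := by
    rw [transvection_mul_transvection_same _ _ h]
    have : (1 : ZMod 2) + 1 = 0 := by decide
    rw [this, transvection_zero]
  inv_val := by
    rw [transvection_mul_transvection_same _ _ h]
    have : (1 : ZMod 2) + 1 = 0 := by decide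
    rw [this, transvection_zero]

theorem T_mem {a : ℕ} {i j : Idx a} (h : i ≠ j) (hf : Free i j) : T i j h ∈ G a :=
  Subgroup.subset_closure ⟨i, j, h, hf, rfl⟩

/-- The pattern of the matrices of our group. -/
def Pat {a : ℕ} (M : Matrix (Idx a) (Idx a) (ZMod 2)) : Prop :=
  ∀ i j, ¬ Free i j → M i j = (1 : Matrix (Idx a) (Idx a) (ZMod 2)) i j

theorem Pat.mul {a : ℕ} {M N : Matrix (Idx a) (Idx a) (ZMod 2)} (hM : Pat M) (hN : Pat N) :
    Pat (M * N) := by
  have key : M * N = 1 + (M - 1) + (N - 1) + (M - 1) * (N - 1) := by noncomm_ring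
  intro i j hij
  rw [key]
  have h1 : (M - 1) i j = 0 := by simp [hM i j hij]
  have h2 : (N - 1) i j = 0 := by simp [hN i j hij]
  have h3 : ((M - 1) * (N - 1)) i j = 0 := by
    rw [Matrix.mul_apply]
    apply Finset.sum_eq_zero
    intro k _
    by_cases hik : Free i k
    · have hkj : ¬ Free k j := fun h => hij (hik.trans h)
      have : (N - 1) k j = 0 := by simp [hN k j hkj]
      rw [this, mul_zero]
    · have : (M - 1) i k = 0 := by simp [hM i k hik]
      rw [this, zero_mul]
  simp only [Matrix.add_apply, h1, h2, h3, add_zero]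

theorem Pat.one {a : ℕ} : Pat (1 : Matrix (Idx a) (Idx a) (ZMod 2)) := fun _ _ _ => rfl

theorem Pat.pow {a : ℕ} {M : Matrix (Idx a) (Idx a) (ZMod 2)} (hM : Pat M) (n : ℕ) :
    Pat (M ^ n) := by
  induction n with
  | zero => simpa using Pat.one
  | succ n ih => rw [pow_succ]; exact ih.mul hM

theorem Pat.of_mem {a : ℕ} {g : (Matrix (Idx a) (Idx a) (ZMod 2))ˣ} (hg : g ∈ G a) :
    Pat (g : Matrix (Idx a) (Idx a) (ZMod 2)) := by
  induction hg using Subgroup.closure_induction with
  | mem x hx =>
    obtain ⟨i, j, hij, hf, hx⟩ := hx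
    intro k l hkl
    rw [hx, transvection, Matrix.add_apply]
    have : Matrix.single i j (1 : ZMod 2) k l = 0 := by
      apply Matrix.single_apply_of_ne
      rintro ⟨rfl, rfl⟩
      exact hkl hf
    rw [this, add_zero]
  | one => exact Pat.one
  | mul x y _ _ hx hy => exact hx.mul hy
  | inv x _ hx =>
    have h1 : x⁻¹ = x ^ (Nat.card (Matrix (Idx a) (Idx a) (ZMod 2))ˣ - 1) := by
      have h2 : x ^ (Nat.card (Matrix (Idx a) (Idx a) (ZMod 2))ˣ) = 1 := pow_card_eq_one'
      have h3 : 0 < Nat.card (Matrix (Idx a) (Idx a) (ZMod 2))ˣ := Nat.card_pos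
      apply inv_eq_of_mul_eq_one_left
      rw [← pow_succ, Nat.sub_add_cancel h3, h2]
    rw [h1, Units.val_pow_eq_pow_val]
    exact hx.pow _

/-! ### Perfectness -/

theorem comm_T {a : ℕ} {i j k : Idx a} (hij : i ≠ j) (hjk : j ≠ k) (hik : i ≠ k) :
    ⁅T i j hij, T j k hjk⁆ = T i k hik := by
  rw [commutatorElement_def]
  have hinv : ∀ (p q : Idx a) (h : p ≠ q), (T p q h)⁻¹ = T p q h := fun p q h => rfl
  rw [hinv, hinv]
  ext1
  simp only [Units.val_mul, T, transvection]
  have e1 : Matrix.single i j (1 : ZMod 2) * Matrix.single j k (1 : ZMod 2) =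
      Matrix.single i k (1 : ZMod 2) := by simp
  have e2 : Matrix.single j k (1 : ZMod 2) * Matrix.single i j (1 : ZMod 2) = 0 := by
    simp [hik.symm]
  have e3 : Matrix.single i j (1 : ZMod 2) * Matrix.single i j (1 : ZMod 2) = 0 := by
    simp [hij.symm]
  have e4 : Matrix.single j k (1 : ZMod 2) * Matrix.single j k (1 : ZMod 2) = 0 := by
    simp [hjk.symm]
  have two : ∀ M : Matrix (Idx a) (Idx a) (ZMod 2), M + M = 0 := by
    intro M; ext p q
    have : ∀ x : ZMod 2, x + x = 0 := by decide
    simp [this]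
  set A := Matrix.single i j (1 : ZMod 2) with hA
  set B := Matrix.single j k (1 : ZMod 2) with hB
  set C := Matrix.single i k (1 : ZMod 2) with hC
  have e5 : C * A = 0 := by simp [hA, hC, hik.symm]
  have e6 : C * B = 0 := by simp [hB, hC, hjk.symm]
  calc (1 + A) * (1 + B) * (1 + A) * (1 + B)
      = 1 + (A + A) + (B + B) + (A * B + A * B) + B * A + A * B * A + A * A + A * B + B * B
        + A * A * B + B * A * B + A * B * B + A * B * A * B := by noncomm_ring
    _ = 1 + C := by
        rw [two, two, e1, e2, e3, two, e4, e5, e6]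
        simp

theorem exists_mid {a : ℕ} {i k : Idx a} (hik : i ≠ k) (hf : Free i k) :
    ∃ j, i ≠ j ∧ j ≠ k ∧ Free i j ∧ Free j k := by
  have three : ∀ p q : Fin 3, ∃ r : Fin 3, r ≠ p ∧ r ≠ q := by decide
  rcases i with (i | i) | (i | i) <;> rcases k with (k | k) | (k | k)
  · simp [Free, lev] at hf
  · obtain ⟨r, hr, -⟩ := three k k
    exact ⟨Sum.inl (Sum.inr r), by simp, by simpa using hr, by simp [Free, lev], by simp [Free, lev]⟩
  · exact ⟨Sum.inl (Sum.inr 0), by simp, by simp, by simp [Free, lev], by simp [Free, lev]⟩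
  · exact ⟨Sum.inl (Sum.inr 0), by simp, by simp, by simp [Free, lev], by simp [Free, lev]⟩
  · simp [Free, lev] at hf
  · obtain ⟨r, hr, hr'⟩ := three i k
    exact ⟨Sum.inl (Sum.inr r), by simpa using hr.symm, by simpa using hr', by simp [Free, lev],
      by simp [Free, lev]⟩
  · obtain ⟨r, hr, -⟩ := three i i
    exact ⟨Sum.inl (Sum.inr r), by simpa using hr.symm, by simp, by simp [Free, lev],
      by simp [Free, lev]⟩
  · obtain ⟨r, hr, -⟩ := three i i
    exact ⟨Sum.inl (Sum.inr r), by simpa using hr.symm, by simp, by simp [Free, lev],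
      by simp [Free, lev]⟩
  · simp [Free, lev] at hf
  · simp [Free, lev] at hf
  · simp [Free, lev] at hf
  · obtain ⟨r, hr, -⟩ := three k k
    exact ⟨Sum.inr (Sum.inr r), by simp, by simpa using hr, by simp [Free, lev], by simp [Free, lev]⟩
  · simp [Free, lev] at hf
  · simp [Free, lev] at hf
  · simp [Free, lev] at hf
  · obtain ⟨r, hr, hr'⟩ := three i k
    exact ⟨Sum.inr (Sum.inr r), by simpa using hr.symm, by simpa using hr', by simp [Free, lev],
      by simp [Free, lev]⟩

theorem G_le_commutator (a : ℕ) : G a ≤ ⁅G a, G a⁆ := by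
  unfold G
  rw [Subgroup.closure_le]
  rintro g ⟨i, k, hik, hf, hg⟩
  obtain ⟨j, hij, hjk, h1, h2⟩ := exists_mid hik hf
  have : g = ⁅T i j hij, T j k hjk⁆ := by
    rw [comm_T hij hjk hik]
    ext1
    exact hg
  rw [this]
  exact Subgroup.commutator_mem_commutator (T_mem hij h1) (T_mem hjk h2)

theorem perfect (a : ℕ) : commutator (G a) = ⊤ := by
  apply Subgroup.map_injective (G a).subtype_injective
  rw [Subgroup.map_subtype_commutator, ← MonoidHom.range_eq_map, Subgroup.range_subtype]
  exact le_antisymm (Subgroup.commutator_le_self _) (G_le_commutator a)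

/-! ### The centre -/

theorem exists_target {a : ℕ} (i : Idx a) : ∃ j, i ≠ j ∧ Free i j := by
  have three : ∀ p : Fin 3, ∃ r : Fin 3, p ≠ r := by decide
  rcases i with (i | i) | (i | i)
  · exact ⟨Sum.inl (Sum.inr 0), by simp, by simp [Free, lev]⟩
  · obtain ⟨r, hr⟩ := three i
    exact ⟨Sum.inl (Sum.inr r), by simpa using hr, by simp [Free, lev]⟩
  · exact ⟨Sum.inr (Sum.inr 0), by simp, by simp [Free, lev]⟩
  · obtain ⟨r, hr⟩ := three i
    exact ⟨Sum.inr (Sum.inr r), by simpa using hr, by simp [Free, lev]⟩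

theorem center_trivial (a : ℕ) : Subgroup.center (G a) = ⊥ := by
  rw [eq_bot_iff]
  intro z hz
  rw [Subgroup.mem_bot]
  have hcomm : ∀ (i j : Idx a) (h : i ≠ j), Free i j →
      transvection i j 1 * ((z : (Matrix (Idx a) (Idx a) (ZMod 2))ˣ) :
        Matrix (Idx a) (Idx a) (ZMod 2)) =
      ((z : (Matrix (Idx a) (Idx a) (ZMod 2))ˣ) :
        Matrix (Idx a) (Idx a) (ZMod 2)) * transvection i j 1 := by
    intro i j h hf
    have h1 := (Subgroup.mem_center_iff.mp hz) ⟨T i j h, T_mem h hf⟩
    have h2 := congrArg (fun t : G a => ((t : (Matrix (Idx a) (Idx a) (ZMod 2))ˣ) :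
        Matrix (Idx a) (Idx a) (ZMod 2))) h1
    simpa [T] using h2
  set Z := ((z : (Matrix (Idx a) (Idx a) (ZMod 2))ˣ) : Matrix (Idx a) (Idx a) (ZMod 2)) with hZ
  have off : ∀ i k : Idx a, k ≠ i → Z k i = 0 := by
    intro i k hki
    obtain ⟨j, hij, hf⟩ := exists_target i
    have h1 := congrFun (congrFun (hcomm i j hij hf) k) j
    rw [transvection_mul_apply_of_ne _ _ _ _ hki, mul_transvection_apply_same] at h1
    simpa using h1
  have diag : ∀ i : Idx a, Z i i = 1 := by
    intro i
    have h1 : Z * (((z : (Matrix (Idx a) (Idx a) (ZMod 2))ˣ)⁻¹ :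
        (Matrix (Idx a) (Idx a) (ZMod 2))ˣ) : Matrix (Idx a) (Idx a) (ZMod 2)) = 1 :=
      Units.mul_inv _
    have h2 := congrFun (congrFun h1 i) i
    rw [Matrix.mul_apply, Finset.sum_eq_single i, Matrix.one_apply_eq] at h2
    · have h3 : Z i i ≠ 0 := by
        intro h0
        rw [h0, zero_mul] at h2
        exact zero_ne_one h2
      have h4 : ∀ x : ZMod 2, x ≠ 0 → x = 1 := by decide
      exact h4 _ h3
    · intro k _ hk
      rw [off k i (Ne.symm hk), zero_mul]
    · intro h
      exact absurd (Finset.mem_univ i) h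
  have hZ1 : Z = 1 := by
    ext i j
    by_cases hij : i = j
    · subst hij
      rw [diag, Matrix.one_apply_eq]
    · rw [off j i hij, Matrix.one_apply_ne hij]
  ext1
  ext1
  exact hZ1

/-! ### Class sizes -/

/-- The part of a matrix which we record. -/
def part1 {a : ℕ} (M : Matrix (Idx a) (Idx a) (ZMod 2)) :
    (Fin a → Fin 3 → ZMod 2) × (Fin 3 → Fin 3 → ZMod 2) × (Fin 3 → Fin a → ZMod 2) ×
      (Fin 3 → Fin 3 → ZMod 2) × (Fin a → Fin 3 → ZMod 2) × (Fin 3 → Fin 3 → ZMod 2) :=
  (fun i j => M (Sum.inl (Sum.inl i)) (Sum.inl (Sum.inr j)),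
   fun i j => M (Sum.inl (Sum.inr i)) (Sum.inl (Sum.inr j)),
   fun i j => M (Sum.inl (Sum.inr i)) (Sum.inr (Sum.inl j)),
   fun i j => M (Sum.inl (Sum.inr i)) (Sum.inr (Sum.inr j)),
   fun i j => M (Sum.inr (Sum.inl i)) (Sum.inr (Sum.inr j)),
   fun i j => M (Sum.inr (Sum.inr i)) (Sum.inr (Sum.inr j)))

/-- The corner block. -/
def part2 {a : ℕ} (M : Matrix (Idx a) (Idx a) (ZMod 2)) : Fin a → Fin 3 → ZMod 2 :=
  fun i j => M (Sum.inl (Sum.inl i)) (Sum.inr (Sum.inr j))

theorem part1_diff {a : ℕ} {M N : Matrix (Idx a) (Idx a) (ZMod 2)} (hM : Pat M) (hN : Pat N)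
    (h : part1 M = part1 N) (i j : Idx a) (hij : ¬ (lev i = 0 ∧ 2 ≤ lev j)) :
    (M - N) i j = 0 := by
  simp only [part1, Prod.mk.injEq, funext_iff] at h
  obtain ⟨h1, h2, h3, h4, h5, h6⟩ := h
  rw [Matrix.sub_apply, sub_eq_zero]
  by_cases hf : Free i j
  · rcases i with (i | i) | (i | i) <;> rcases j with (j | j) | (j | j) <;>
      simp_all [Free, lev]
  · rw [hM i j hf, hN i j hf]

theorem part2_diff {a : ℕ} {M N : Matrix (Idx a) (Idx a) (ZMod 2)}
    (h : part2 M = part2 N) (i j : Idx a) (hij : lev i = 0 ∧ lev j = 3) :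
    (M - N) i j = 0 := by
  simp only [part2, funext_iff] at h
  rw [Matrix.sub_apply, sub_eq_zero]
  rcases i with (i | i) | (i | i) <;> rcases j with (j | j) | (j | j) <;>
      simp_all [lev]

theorem lev_le {a : ℕ} (i : Idx a) : lev i ≤ 3 := by
  rcases i with (i | i) | (i | i) <;> simp [lev]

/-- The key computation: conjugates `y = g x g⁻¹` and `y' = g' x g'⁻¹` such that `g` and `g'`
only differ at the positions in blocks (0,2) and (0,3) only differ in the block (0,3). -/
theorem key {a : ℕ} {g g' x y y' gi : Matrix (Idx a) (Idx a) (ZMod 2)}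
    (hg : Pat g) (hg' : Pat g') (hx : Pat x) (hy' : Pat y') (hgi : Pat gi)
    (hinv : g * gi = 1) (e : y * g = g * x) (e' : y' * g' = g' * x)
    (h1 : part1 g' = part1 g) (h2 : part2 y' = part2 y) : y = y' := by
  set D := g' - g with hD
  have hD0 : ∀ i j, ¬ (lev i = 0 ∧ 2 ≤ lev j) → D i j = 0 := fun i j h =>
    part1_diff hg' hg h1 i j h
  -- `y' D = D`
  have s1 : y' * D = D := by
    have : (y' - 1) * D = 0 := by
      ext i j
      rw [Matrix.mul_apply]
      apply Finset.sum_eq_zero
      intro k _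
      by_cases hk : lev k = 0
      · have : (y' - 1) i k = 0 := by
          rw [Matrix.sub_apply, hy' i k (by simp only [Free]; omega), sub_self]
        rw [this, zero_mul]
      · rw [hD0 k j (fun h => hk h.1), mul_zero]
    rw [sub_mul, one_mul, sub_eq_zero] at this
    exact this
  -- `D (x - 1)` is supported in the block (0,3)
  have s2 : ∀ i j, ¬ (lev i = 0 ∧ lev j = 3) → (D * (x - 1)) i j = 0 := by
    intro i j hij
    rw [Matrix.mul_apply]
    apply Finset.sum_eq_zero
    intro k _
    by_cases hk : lev i = 0 ∧ 2 ≤ lev k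
    · have hj := lev_le j
      have hk' := lev_le k
      have : (x - 1) k j = 0 := by
        rw [Matrix.sub_apply, hx k j (by simp only [Free]; omega), sub_self]
      rw [this, mul_zero]
    · rw [hD0 i k hk, zero_mul]
  -- `(y' - y) g = D (x - 1)`
  have s3 : (y' - y) * g = D * (x - 1) := by
    have : y' * g' - y * g = g' * x - g * x := by rw [e, e']
    have h3 : g' = g + D := by rw [hD]; abel
    have h4 : y' * g' - y * g = (y' - y) * g + y' * D := by
      rw [h3]; noncomm_ring
    have h5 : g' * x - g * x = D * x := by rw [h3]; noncomm_ring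
    rw [h4, h5, s1] at this
    rw [mul_sub, mul_one, ← this]
    abel
  have s4 : y' - y = D * (x - 1) * gi := by
    rw [← s3, mul_assoc, hinv, mul_one]
  have s5 : ∀ i j, ¬ (lev i = 0 ∧ lev j = 3) → (y' - y) i j = 0 := by
    intro i j hij
    rw [s4, Matrix.mul_apply]
    apply Finset.sum_eq_zero
    intro k _
    by_cases hk : lev i = 0 ∧ lev k = 3
    · have hj := lev_le j
      have : gi k j = 0 := by
        have h6 := hgi k j (by simp only [Free]; omega)
        rw [h6, Matrix.one_apply_ne]
        rintro rfl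
        exact hij hk
      rw [this, mul_zero]
    · rw [s2 i k hk, zero_mul]
  have s6 : y' - y = 0 := by
    ext i j
    by_cases hij : lev i = 0 ∧ lev j = 3
    · exact part2_diff h2 i j hij
    · exact s5 i j hij
  exact (sub_eq_zero.mp s6).symm

theorem class_le (a : ℕ) (x : G a) : (conjugatesOf x).ncard ≤ 2 ^ (12 * a + 27) := by
  classical
  have hch : ∀ y : conjugatesOf x, ∃ g : G a, g * x * g⁻¹ = y := fun y => isConj_iff.mp y.2
  choose c hc using hch
  let f : conjugatesOf x →
      ((Fin a → Fin 3 → ZMod 2) × (Fin 3 → Fin 3 → ZMod 2) × (Fin 3 → Fin a → ZMod 2) ×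
      (Fin 3 → Fin 3 → ZMod 2) × (Fin a → Fin 3 → ZMod 2) × (Fin 3 → Fin 3 → ZMod 2)) ×
      (Fin a → Fin 3 → ZMod 2) := fun y =>
    (part1 (((c y : G a) : (Matrix (Idx a) (Idx a) (ZMod 2))ˣ) : Matrix (Idx a) (Idx a) (ZMod 2)),
     part2 (((y : G a) : (Matrix (Idx a) (Idx a) (ZMod 2))ˣ) : Matrix (Idx a) (Idx a) (ZMod 2)))
  have hf : Function.Injective f := by
    intro y y' hyy
    simp only [f, Prod.mk.injEq] at hyy
    have e : ∀ y : conjugatesOf x,
        (((y : G a) : (Matrix (Idx a) (Idx a) (ZMod 2))ˣ) : Matrix (Idx a) (Idx a) (ZMod 2)) *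
        (((c y : G a) : (Matrix (Idx a) (Idx a) (ZMod 2))ˣ) : Matrix (Idx a) (Idx a) (ZMod 2)) =
        (((c y : G a) : (Matrix (Idx a) (Idx a) (ZMod 2))ˣ) : Matrix (Idx a) (Idx a) (ZMod 2)) *
        ((x : (Matrix (Idx a) (Idx a) (ZMod 2))ˣ) : Matrix (Idx a) (Idx a) (ZMod 2)) := by
      intro y
      have h1 : (y : G a) * c y = c y * x := by
        rw [← hc y]; group
      have h2 := congrArg (fun t : G a => ((t : (Matrix (Idx a) (Idx a) (ZMod 2))ˣ) :
        Matrix (Idx a) (Idx a) (ZMod 2))) h1
      simpa using h2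
    have := key (Pat.of_mem (c y).2) (Pat.of_mem (c y').2) (Pat.of_mem x.2)
      (Pat.of_mem (y' : G a).2) (Pat.of_mem (inv_mem (c y).2)) (Units.mul_inv _) (e y) (e y')
      hyy.1.symm hyy.2.symm
    ext1
    ext1
    ext1
    exact this
  have h1 := Nat.card_le_card_of_injective f hf
  have h2 : Nat.card (conjugatesOf x) = (conjugatesOf x).ncard := rfl
  rw [← h2]
  refine h1.trans (le_of_eq ?_)
  simp only [Nat.card_eq_fintype_card, Fintype.card_prod, Fintype.card_pi, Finset.prod_const,
    Finset.card_univ, Fintype.card_fin, ZMod.card, ← pow_mul, ← pow_add]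
  congr 1
  ring

/-! ### The order of the group -/

/-- The matrix with block `b` in position (0,2) and zeros elsewhere. -/
def B {a : ℕ} (b : Matrix (Fin a) (Fin a) (ZMod 2)) : Matrix (Idx a) (Idx a) (ZMod 2)
  | Sum.inl (Sum.inl i), Sum.inr (Sum.inl j) => b i j
  | _, _ => 0

theorem B_mul {a : ℕ} (b b' : Matrix (Fin a) (Fin a) (ZMod 2)) : B b * B b' = 0 := by
  ext i j
  rw [Matrix.mul_apply]
  apply Finset.sum_eq_zero
  intro k _
  rcases i with (i | i) | (i | i) <;> rcases j with (j | j) | (j | j) <;>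
    rcases k with (k | k) | (k | k) <;> simp [B]

theorem B_add {a : ℕ} (b b' : Matrix (Fin a) (Fin a) (ZMod 2)) : B (b + b') = B b + B b' := by
  ext i j
  rcases i with (i | i) | (i | i) <;> rcases j with (j | j) | (j | j) <;> simp [B]

theorem B_zero {a : ℕ} : B (0 : Matrix (Fin a) (Fin a) (ZMod 2)) = 0 := by
  ext i j
  rcases i with (i | i) | (i | i) <;> rcases j with (j | j) | (j | j) <;> simp [B]

theorem two_mat {a : ℕ} (M : Matrix (Idx a) (Idx a) (ZMod 2)) : M + M = 0 := by
  ext p q
  have : ∀ x : ZMod 2, x + x = 0 := by decide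
  simp [this]

/-- The corresponding unit. -/
def U {a : ℕ} (b : Matrix (Fin a) (Fin a) (ZMod 2)) : (Matrix (Idx a) (Idx a) (ZMod 2))ˣ where
  val := 1 + B b
  inv := 1 + B b
  val_inv := by
    have : (1 + B b) * (1 + B b) = 1 + (B b + B b) + B b * B b := by noncomm_ring
    rw [this, two_mat, B_mul]; simp
  inv_val := by
    have : (1 + B b) * (1 + B b) = 1 + (B b + B b) + B b * B b := by noncomm_ring
    rw [this, two_mat, B_mul]; simp

theorem U_add {a : ℕ} (b b' : Matrix (Fin a) (Fin a) (ZMod 2)) : U (b + b') = U b * U b' := by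
  ext1
  show 1 + B (b + b') = (1 + B b) * (1 + B b')
  have : (1 + B b) * (1 + B b') = 1 + (B b + B b') + B b * B b' := by noncomm_ring
  rw [this, B_mul, B_add, add_zero]

theorem U_zero {a : ℕ} : U (0 : Matrix (Fin a) (Fin a) (ZMod 2)) = 1 := by
  ext1
  show 1 + B 0 = 1
  rw [B_zero, add_zero]

theorem U_mem {a : ℕ} (b : Matrix (Fin a) (Fin a) (ZMod 2)) : U b ∈ G a := by
  induction b using Matrix.induction_on' with
  | h_zero => rw [U_zero]; exact one_mem _
  | h_add p q hp hq => rw [U_add]; exact mul_mem hp hq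
  | h_std_basis i j x =>
    have hx : x = 0 ∨ x = 1 := by
      revert x; decide
    rcases hx with rfl | rfl
    · rw [Matrix.single_zero, U_zero]; exact one_mem _
    · apply Subgroup.subset_closure
      refine ⟨Sum.inl (Sum.inl i), Sum.inr (Sum.inl j), by simp, by simp [Free, lev], ?_⟩
      show 1 + B _ = _
      unfold transvection
      congr 1
      ext p q
      rcases p with (p | p) | (p | p) <;> rcases q with (q | q) | (q | q) <;>
        simp [B, Matrix.single_apply]

theorem U_injective {a : ℕ} : Function.Injective (fun b : Matrix (Fin a) (Fin a) (ZMod 2) =>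
    (⟨U b, U_mem b⟩ : G a)) := by
  intro b b' h
  have h1 : U b = U b' := congrArg Subtype.val h
  have h2 : (1 : Matrix (Idx a) (Idx a) (ZMod 2)) + B b = 1 + B b' := congrArg Units.val h1
  have h3 := add_left_cancel h2
  ext i j
  exact congrFun (congrFun h3 (Sum.inl (Sum.inl i))) (Sum.inr (Sum.inl j))

theorem order_ge (a : ℕ) : 2 ^ (a * a) ≤ Nat.card (G a) := by
  have h := Nat.card_le_card_of_injective _ (U_injective (a := a))
  refine le_trans (le_of_eq ?_) h
  have : Nat.card (Matrix (Fin a) (Fin a) (ZMod 2)) = Nat.card (Fin a → Fin a → ZMod 2) := rfl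
  rw [this]
  simp only [Nat.card_eq_fintype_card, Fintype.card_pi, Finset.prod_const,
    Finset.card_univ, Fintype.card_fin, ZMod.card, ← pow_mul]

/-- Each member of our family of groups has small classes. -/
theorem maxClass_le (a : ℕ) : maxClass (G a) ≤ 2 ^ (12 * a + 27) :=
  ciSup_le fun x => class_le a x

/-- Sanity check: `maxClass` bounds every class of a finite group and is attained. -/
theorem class_le_maxClass (G : Type*) [Group G] [Finite G] (x : G) :
    (conjugatesOf x).ncard ≤ maxClass G :=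
  le_ciSup (f := fun x : G => (conjugatesOf x).ncard) (Set.finite_range _).bddAbove x

theorem exists_maxClass (G : Type*) [Group G] [Finite G] :
    ∃ x : G, (conjugatesOf x).ncard = maxClass G :=
  Nat.sSup_mem (Set.range_nonempty _) (Set.finite_range _).bddAbove

/-- For every `m` there is a finite perfect group with trivial centre whose order is greater
than the `m`-th power of the largest size of a conjugacy class. -/
theorem result : ∀ m : ℕ, ∃ (G : Type) (_ : Group G) (_ : Finite G),
    commutator G = ⊤ ∧ Subgroup.center G = ⊥ ∧ maxClass G ^ m < Nat.card G := by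
  intro m
  refine ⟨G (12 * m + 28), inferInstance, inferInstance, perfect _, center_trivial _, ?_⟩
  refine lt_of_le_of_lt (Nat.pow_le_pow_left (maxClass_le _) m) ?_
  refine lt_of_lt_of_le ?_ (order_ge _)
  rw [← pow_mul]
  apply Nat.pow_lt_pow_right (by norm_num)
  nlinarith [Nat.zero_le m]

/-- The inequality of the question fails. -/
theorem not_le_sq : ¬ ∀ (G : Type) [Group G] [Finite G], commutator G = ⊤ →
    Subgroup.center G = ⊥ → Nat.card G ≤ maxClass G ^ 2 := by
  intro h
  obtain ⟨G, i1, i2, h1, h2, h3⟩ := result 2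
  exact absurd (h G h1 h2) (not_le.mpr h3)

end Pool.Agent.Results.MP_606b74_al.SuperPoly
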